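import Pool.Agent.Q74.BT.Stm4
import Pool.Agent.Q14.BT.NetA
import Pool.Agent.Q6.SF.Lip
import Pool.Agent.Q176.SF.Expand
import Pool.Agent.Q177.SF.Comp
import Pool.Agent.Q210.SF.CInj

/-! # Project BT (helper74), part 4, job LipF: coalescing walkers on sets forget small changes of the start -/

set_option autoImplicit false

namespace Pool.Agent.Q151.BT

open Finset
open Pool.Agent.Q74.SF
open Pool.Agent.Q74.BT
open Pool.Agent.Q14.BT (can can_iff can_congr can_can)

/-- from unit steps to arbitrary changes -/
theorem unit_steps {k : ℕ} (H : (Fin k → ℤ) → ℝ) (D : ℝ)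
    (h : ∀ (a : Fin k → ℤ) (i : Fin k), |H (a + Pi.single i 1) - H a| ≤ D) :
    ∀ (n : ℕ) (a b : Fin k → ℤ), ∑ i, (a i - b i).natAbs = n → |H a - H b| ≤ D * n := by
  intro n
  induction n with
  | zero =>
    intro a b hab
    have h1 : a = b := by
      funext i
      have := (Finset.sum_eq_zero_iff.1 hab) i (mem_univ i)
      omega
    rw [h1]
    simp
  | succ n ih =>
    intro a b hab
    have h0 : ∃ i, a i ≠ b i := by
      by_contra hc
      push Not at hc
      rw [Finset.sum_eq_zero fun i _ => by rw [hc i]; simp] at hab
      omega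
    obtain ⟨i, hi⟩ := h0
    have key : ∀ a' : Fin k → ℤ, (∀ j, j ≠ i → a' j = a j) → (a' i - b i).natAbs + 1 = (a i - b i).natAbs →
        ∑ j, (a' j - b j).natAbs = n := by
      intro a' h1 h2
      have e1 := Finset.add_sum_erase univ (fun j => (a' j - b j).natAbs) (mem_univ i)
      have e2 := Finset.add_sum_erase univ (fun j => (a j - b j).natAbs) (mem_univ i)
      have e3 : ∑ j ∈ univ.erase i, (a' j - b j).natAbs = ∑ j ∈ univ.erase i, (a j - b j).natAbs := by
        refine Finset.sum_congr rfl fun j hj => ?_
        rw [h1 j (Finset.ne_of_mem_erase hj)]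
      omega
    rcases lt_or_gt_of_ne hi with h1 | h1
    · have h2 := key (a + Pi.single i 1) (fun j hj => by simp [Pi.single_eq_of_ne hj]) (by
        simp only [Pi.add_apply, Pi.single_eq_same]
        omega)
      have h3 := ih _ _ h2
      have h4 := h a i
      have h5 := abs_sub_le (H a) (H (a + Pi.single i 1)) (H b)
      have h6 := abs_sub_comm (H a) (H (a + Pi.single i 1))
      push_cast
      linarith
    · have h2 := key (a - Pi.single i 1) (fun j hj => by simp [Pi.single_eq_of_ne hj]) (by
        simp only [Pi.sub_apply, Pi.single_eq_same]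
        omega)
      have h3 := ih _ _ h2
      have h4 := h (a - Pi.single i 1) i
      rw [sub_add_cancel] at h4
      have h5 := abs_sub_le (H a) (H (a - Pi.single i 1)) (H b)
      push_cast
      linarith

/-- from the Lipschitz property for patterns -/
theorem lipF' (h : S_Lip) : S_LipF := by
  classical
  intro k
  obtain ⟨C, hC, hL⟩ := h k
  refine ⟨((univ : Finset (Fin k → Fin k)).card : ℝ) * C + 1, by positivity, fun F hF r a b => ?_⟩
  rw [← CG_cF F r a, ← CG_cF F r b]
  have hdec : ∀ c : Fin k → ℤ, CG (fun z => F (univ.image z)) r c =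
      ∑ π : Fin k → Fin k, (if can π = π then 1 else 0) *
        CG (fun z => pat π z * F (univ.image z)) r c := by
    intro c
    have e1 : (fun z : Fin k → ℤ => F (univ.image z)) = fun z => ∑ π : Fin k → Fin k,
        (if can π = π then 1 else 0) * (pat π z * F (univ.image z)) := by
      funext z
      rw [sum_eq_single (can z)]
      · have h1 : pat (can z) z = 1 := by
          unfold pat
          rw [if_pos]
          intro i j
          exact (can_iff z i j).symm
        rw [if_pos (can_can z), h1, one_mul, one_mul]
      · intro π _ hπ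
        by_cases hc : can π = π
        · have h1 : pat π z = 0 := by
            unfold pat
            rw [if_neg]
            intro hh
            refine hπ ?_
            rw [← hc]
            exact (can_congr z π hh).symm
          rw [h1]
          ring
        · rw [if_neg hc, zero_mul]
      · intro hh
        exact absurd (mem_univ _) hh
    have e2 := CG_sum (k := k) (univ : Finset (Fin k → Fin k))
      (fun π z => (if can π = π then 1 else 0) * (pat π z * F (univ.image z))) r c
    conv_lhs => rw [e1]
    rw [e2]
    refine sum_congr rfl fun π _ => ?_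
    exact CG_mul _ _ _ _
  have hr : 0 < √((r : ℝ) + 1) := by positivity
  have hstep : ∀ (c : Fin k → ℤ) (i : Fin k),
      |CG (fun z => F (univ.image z)) r (c + Pi.single i 1) - CG (fun z => F (univ.image z)) r c| ≤
        (((univ : Finset (Fin k → Fin k)).card : ℝ) * C + 1) / √((r : ℝ) + 1) := by
    intro c i
    rw [hdec, hdec, ← sum_sub_distrib]
    have h1 : |∑ π : Fin k → Fin k, ((if can π = π then (1 : ℝ) else 0) *
        CG (fun z => pat π z * F (univ.image z)) r (c + Pi.single i 1) - (if can π = π then 1 else 0) *
        CG (fun z => pat π z * F (univ.image z)) r c)| ≤ ∑ _π : Fin k → Fin k, C / √((r : ℝ) + 1) := by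
      refine (abs_sum_le_sum_abs _ _).trans (sum_le_sum fun π _ => ?_)
      rw [← mul_sub, abs_mul]
      have h2 := hL π (fun z => F (univ.image z)) (fun z => hF _) r c i
      have h3 : |(if can π = π then (1 : ℝ) else 0)| ≤ 1 := by
        split_ifs <;> norm_num
      calc |(if can π = π then (1 : ℝ) else 0)| * |CG (fun z => pat π z * F (univ.image z)) r (c + Pi.single i 1) -
          CG (fun z => pat π z * F (univ.image z)) r c| ≤ 1 * (C / √((r : ℝ) + 1)) :=
            mul_le_mul h3 h2 (abs_nonneg _) zero_le_one
        _ = _ := one_mul _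
    refine h1.trans ?_
    rw [sum_const, nsmul_eq_mul, mul_div_assoc']
    refine div_le_div_of_nonneg_right ?_ hr.le
    linarith
  have h5 := unit_steps _ _ hstep (∑ i, (a i - b i).natAbs) a b rfl
  refine h5.trans (le_of_eq ?_)
  congr 1
  push_cast
  refine sum_congr rfl fun i _ => ?_
  have : ((a i : ℝ) - b i) = ((a i - b i : ℤ) : ℝ) := by push_cast; ring
  rw [this, Nat.cast_natAbs, Int.cast_abs]

/-- JOB BT4-LipF -/
theorem lipF : S_LipF :=
  lipF' (Pool.Agent.Q6.SF.lip Pool.Agent.Q176.SF.Expand.expand Pool.Agent.Q177.SF.comp Pool.Agent.Q210.SF.cinj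
    Pool.Agent.Q177.SF.cmono)

end Pool.Agent.Q151.BT
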