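import Pool.Agent.Q74.BT.Stm4
import Pool.Agent.Q14.BT.NetLaw
import Pool.Agent.Q16.BT.Pin
import Pool.Agent.Q92.BT.CwMean

/-!
# Project BT (helper74), part 4: job TightW, the levels of a block are those of the net
-/

set_option autoImplicit false

namespace Pool.Agent.Q151.BT

open Finset
open Pool.Agent.Q158.Pair (T surv nc nc_nonneg)
open Pool.Agent.Q74.AR (oc oc_le oc_per qq be surv_main qq_main lim lim_erf)
open Pool.Agent.Q74.KP (EE Erf EE_mono EE_add EE_sub EE_mul EE_const EE_sum lv lv_le_nc oc_add)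
open Pool.Agent.Q74.BL (nx EE_split T_add)
open Pool.Agent.Q74.SF (Off)
open Pool.Agent.Q74.BT
open Pool.Agent.Q16.BT (sP yP lP EE_nc' EE_lv' nc_cases lv_cases nc_eq_zero lv_one_ne lP_lt Erf_mono)
open Pool.Agent.Q14.BT (good_facts off_all low_calc grow ev Erf_low gap_sum)
open Pool.Agent.H395R2.G3 (rr FF rate)
open Pool.Agent.Q153.BT (rr_bounds)

/-- pointwise bound for the number of levels -/
theorem lev_pt {k : ℕ} (r : ℕ) (z : Fin (k + 1) → ℕ × ℤ) (hz : ∀ i : Fin k, (z i.castSucc).1 ≤ (z i.succ).1) (N : ℤ) :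
    1 + ∑ i : Fin k, lv r (sP (z i.castSucc) (z i.succ)) (yP (z i.castSucc) N) -
      ((k : ℝ) + 1) * ∑ i : Fin k, (nc r (sP (z i.castSucc) (z i.succ)) (yP (z i.castSucc) N) -
        lv r (sP (z i.castSucc) (z i.succ)) (yP (z i.castSucc) N)) ≤
    ((univ.image fun i => lP (z i) r N).card : ℝ) := by
  have h0 : ∀ i ∈ (univ : Finset (Fin k)), 0 ≤ nc r (sP (z i.castSucc) (z i.succ)) (yP (z i.castSucc) N) -
      lv r (sP (z i.castSucc) (z i.succ)) (yP (z i.castSucc) N) := fun i _ => sub_nonneg.2 (lv_le_nc _ _ _)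
  by_cases hall : ∀ i : Fin k, nc r (sP (z i.castSucc) (z i.succ)) (yP (z i.castSucc) N) =
      lv r (sP (z i.castSucc) (z i.succ)) (yP (z i.castSucc) N)
  · have hstep : ∀ i : Fin k, (lv r (sP (z i.castSucc) (z i.succ)) (yP (z i.castSucc) N) = 0 ∧
        lP (z i.castSucc) r N = lP (z i.succ) r N) ∨ (lv r (sP (z i.castSucc) (z i.succ)) (yP (z i.castSucc) N) = 1 ∧
        lP (z i.castSucc) r N < lP (z i.succ) r N) := by
      intro i
      rcases lv_cases r (sP (z i.castSucc) (z i.succ)) (yP (z i.castSucc) N) with h | h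
      · left
        refine ⟨h, ?_⟩
        have h1 := nc_eq_zero (hz i) r N ((hall i).trans h)
        have h2 := congrArg Prod.fst h1
        unfold lP yP
        have h3 : (z i.castSucc).1 + oc r (3 ^ (z i.castSucc).1 * N + (z i.castSucc).2) =
            (z i.succ).1 + oc r (3 ^ (z i.succ).1 * N + (z i.succ).2) := h2
        exact_mod_cast h3
      · right
        refine ⟨h, ?_⟩
        have h1 := lv_one_ne (hz i) r N (by rw [h]; exact one_ne_zero)
        exact lP_lt (hz i) r N h1 r le_rfl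
    have hmono : Monotone (fun i : Fin (k + 1) => lP (z i) r N) := by
      rw [Fin.monotone_iff_le_succ]
      intro i
      rcases hstep i with ⟨_, h⟩ | ⟨_, h⟩
      · exact h.le
      · exact h.le
    have e1 := Pool.Agent.Q92.BT.card_mono k _ hmono
    rw [e1]
    have e2 : ∑ i : Fin k, (nc r (sP (z i.castSucc) (z i.succ)) (yP (z i.castSucc) N) -
        lv r (sP (z i.castSucc) (z i.succ)) (yP (z i.castSucc) N)) = 0 :=
      sum_eq_zero fun i _ => by rw [hall i, sub_self]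
    rw [e2, mul_zero, sub_zero]
    have e3 : ∑ i : Fin k, lv r (sP (z i.castSucc) (z i.succ)) (yP (z i.castSucc) N) ≤
        ∑ i : Fin k, if lP (z i.succ) r N ≠ lP (z i.castSucc) r N then (1 : ℝ) else 0 := by
      refine sum_le_sum fun i _ => ?_
      rcases hstep i with ⟨h1, h2⟩ | ⟨h1, h2⟩
      · rw [h1]
        split_ifs <;> norm_num
      · rw [h1, if_pos h2.ne']
    linarith
  · push Not at hall
    obtain ⟨i, hi⟩ := hall
    have h1 : nc r (sP (z i.castSucc) (z i.succ)) (yP (z i.castSucc) N) -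
        lv r (sP (z i.castSucc) (z i.succ)) (yP (z i.castSucc) N) = 1 := by
      have h2 := lv_le_nc r (sP (z i.castSucc) (z i.succ)) (yP (z i.castSucc) N)
      rcases nc_cases r (sP (z i.castSucc) (z i.succ)) (yP (z i.castSucc) N) with a | a <;>
        rcases lv_cases r (sP (z i.castSucc) (z i.succ)) (yP (z i.castSucc) N) with b | b
      · rw [a, b] at hi; exact absurd rfl hi
      · rw [a, b] at h2; norm_num at h2
      · rw [a, b]; norm_num
      · rw [a, b] at hi; exact absurd rfl hi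
    have h2 := single_le_sum h0 (mem_univ i)
    rw [h1] at h2
    have h3 : ∑ i : Fin k, lv r (sP (z i.castSucc) (z i.succ)) (yP (z i.castSucc) N) ≤ k := by
      refine (sum_le_card_nsmul univ _ (1 : ℝ) fun i _ => ?_).trans (by simp)
      rcases lv_cases r (sP (z i.castSucc) (z i.succ)) (yP (z i.castSucc) N) with h | h <;> rw [h] <;> norm_num
    have h4 : (0 : ℝ) ≤ ((univ.image fun i => lP (z i) r N).card : ℝ) := Nat.cast_nonneg _
    have h5 : (0 : ℝ) ≤ k := Nat.cast_nonneg _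
    have h6 : ((k : ℝ) + 1) * 1 ≤ ((k : ℝ) + 1) * ∑ i : Fin k, (nc r (sP (z i.castSucc) (z i.succ)) (yP (z i.castSucc) N) -
        lv r (sP (z i.castSucc) (z i.succ)) (yP (z i.castSucc) N)) := mul_le_mul_of_nonneg_left h2 (by linarith)
    linarith

/-- mean number of levels -/
theorem lev_mean {k : ℕ} (r : ℕ) (e : ℝ) (z : Fin (k + 1) → ℕ × ℤ) (hz : ∀ i : Fin k, (z i.castSucc).1 ≤ (z i.succ).1)
    (hq : ∀ i : Fin k, |qq r (sP (z i.castSucc) (z i.succ)) - lim r (sP (z i.castSucc) (z i.succ)).1| ≤ e)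
    (hs : ∀ i : Fin k, |surv r (sP (z i.castSucc) (z i.succ)) - lim r (sP (z i.castSucc) (z i.succ)).1| ≤ e) :
    1 + ∑ i : Fin k, Erf ((((z i.succ).1 : ℝ) - (z i.castSucc).1) / √r) - k * ((2 * k + 3) * e) ≤
      EE r (fun N => ((univ.image fun i => lP (z i) r N).card : ℝ)) := by
  refine le_trans ?_ (EE_mono r (fun N => lev_pt r z hz N))
  rw [EE_sub, EE_add, EE_const, EE_mul, EE_sum, EE_sum]
  have h1 : ∀ i : Fin k, EE r (fun N => lv r (sP (z i.castSucc) (z i.succ)) (yP (z i.castSucc) N)) =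
      qq r (sP (z i.castSucc) (z i.succ)) := fun i => EE_lv' r _ _
  have h2 : ∀ i : Fin k, EE r (fun N => nc r (sP (z i.castSucc) (z i.succ)) (yP (z i.castSucc) N) -
      lv r (sP (z i.castSucc) (z i.succ)) (yP (z i.castSucc) N)) =
      surv r (sP (z i.castSucc) (z i.succ)) - qq r (sP (z i.castSucc) (z i.succ)) := fun i => by
    rw [EE_sub, EE_nc', EE_lv']
  rw [sum_congr rfl fun i _ => h1 i, sum_congr rfl fun i _ => h2 i]
  have h3 : ∀ i : Fin k, lim r (sP (z i.castSucc) (z i.succ)).1 = Erf ((((z i.succ).1 : ℝ) - (z i.castSucc).1) / √r) := by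
    intro i
    have e1 : lim r (sP (z i.castSucc) (z i.succ)).1 = Erf (((sP (z i.castSucc) (z i.succ)).1 : ℕ) / √(r : ℝ)) :=
      lim_erf r _
    rw [e1]
    congr 2
    show ((((z i.succ).1 - (z i.castSucc).1 : ℕ)) : ℝ) = _
    rw [Nat.cast_sub (hz i)]
  have h4 : ∑ i : Fin k, (Erf ((((z i.succ).1 : ℝ) - (z i.castSucc).1) / √r) - e) ≤
      ∑ i : Fin k, qq r (sP (z i.castSucc) (z i.succ)) := by
    refine sum_le_sum fun i _ => ?_
    rw [← h3 i]
    have := (abs_le.1 (hq i)).1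
    linarith
  have h5 : ∑ i : Fin k, (surv r (sP (z i.castSucc) (z i.succ)) - qq r (sP (z i.castSucc) (z i.succ))) ≤
      ∑ i : Fin k, 2 * e := by
    refine sum_le_sum fun i _ => ?_
    have a1 := (abs_le.1 (hq i)).1
    have a2 := (abs_le.1 (hs i)).2
    linarith
  rw [sum_sub_distrib, sum_const, card_univ, Fintype.card_fin, nsmul_eq_mul] at h4
  rw [sum_const, card_univ, Fintype.card_fin, nsmul_eq_mul] at h5
  have h6 : (0 : ℝ) ≤ k := Nat.cast_nonneg _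
  have h7 : ((k : ℝ) + 1) * ∑ i : Fin k, (surv r (sP (z i.castSucc) (z i.succ)) - qq r (sP (z i.castSucc) (z i.succ))) ≤
      ((k : ℝ) + 1) * (k * (2 * e)) := mul_le_mul_of_nonneg_left h5 (by linarith)
  have h8 : k * ((2 * k + 3) * e) = k * e + ((k : ℝ) + 1) * (k * (2 * e)) := by ring
  linarith

/-- the sum of the limits -/
theorem erf_sum {k r t : ℕ} (hrt : r ≤ t) (hr : 1 ≤ r) {d : ℝ} (a : Fin (k + 1) → ℤ)
    (ha : ∀ i : Fin k, a i.castSucc ≤ a i.succ) (hd : ∀ i : Fin k, ((a i.succ : ℝ) - a i.castSucc) ≤ d * √t) :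
    2 / √Real.pi * (((a (Fin.last k) : ℝ) - a 0) / √t) * (1 - d ^ 2 / 3) ≤
      ∑ i : Fin k, Erf (((a i.succ : ℝ) - a i.castSucc) / √r) := by
  have hr0 : (0 : ℝ) < √r := Real.sqrt_pos.2 (by exact_mod_cast hr)
  have hrt' : √(r : ℝ) ≤ √t := Real.sqrt_le_sqrt (by exact_mod_cast hrt)
  have ht0 : (0 : ℝ) < √t := lt_of_lt_of_le hr0 hrt'
  have h1 : ∀ i : Fin k, 2 / √Real.pi * (((a i.succ : ℝ) - a i.castSucc) / √t) * (1 - d ^ 2 / 3) ≤
      Erf (((a i.succ : ℝ) - a i.castSucc) / √r) := by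
    intro i
    have hmon := ha i
    obtain ⟨g, hg⟩ : ∃ g : ℝ, g = (a i.succ : ℝ) - a i.castSucc := ⟨_, rfl⟩
    have hg0 : 0 ≤ g := by
      rw [hg, sub_nonneg]
      exact_mod_cast hmon
    have hgd : g ≤ d * √t := by rw [hg]; exact hd i
    rw [← hg]
    have h3 : Erf (g / √t) ≤ Erf (g / √r) := Erf_mono (div_le_div_of_nonneg_left hg0 hr0 hrt')
    have hx0 : 0 ≤ g / √t := by positivity
    have h4 := Erf_low hx0
    have hxd : g / √t ≤ d := by
      rw [div_le_iff₀ ht0]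
      exact hgd
    have h5 : 2 / √Real.pi * (g / √t) * (1 - d ^ 2 / 3) ≤ 2 / √Real.pi * (g / √t - (g / √t) ^ 3 / 3) := by
      rw [mul_assoc]
      refine mul_le_mul_of_nonneg_left ?_ (by positivity)
      have h6 : (g / √t) ^ 2 ≤ d ^ 2 := pow_le_pow_left₀ hx0 hxd 2
      nlinarith
    linarith
  have h2 := sum_le_sum fun (i : Fin k) (_ : i ∈ univ) => h1 i
  rw [← sum_mul, ← mul_sum, ← sum_div, gap_sum] at h2
  exact h2

/-- the levels of the net at time `u + r` -/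
theorem net_lev {k : ℕ} (u r : ℕ) (j : Fin (k + 1) → ℤ → ℕ) (hj : ∀ i x y, j i (x + 2 ^ u * y) = j i x) (x N : ℤ) :
    (univ.image fun i => (oc (u + r) ((2 ^ u * N + x) + j i (2 ^ u * N + x)) : ℤ)) =
      univ.image fun i => lP (oc u (x + j i x), T^[u] (x + j i x)) r N := by
  congr 1
  funext i
  have e1 : j i (2 ^ u * N + x) = j i x := by rw [add_comm, hj]
  have e2 : (2 ^ u * N + x : ℤ) + (j i (2 ^ u * N + x) : ℤ) = (x + j i x) + 2 ^ u * N := by rw [e1]; ring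
  rw [e2, oc_add, oc_per, T_add]
  unfold lP yP
  simp only
  push_cast
  congr 2
  ring_nf

/-- the mean number of levels of a net at one time -/
theorem one_time {γ : ℝ} (hγ : IsG γ) (M ε : ℝ) (hM : 0 < M) (hε : 0 < ε) : ∃ k₀ : ℕ, ∀ k : ℕ, k₀ ≤ k → 1 ≤ k →
    ∃ ε₀ : ℝ, 0 < ε₀ ∧ ∃ t₀ : ℕ, ∀ s : ℕ, t₀ ≤ s → ∀ L : ℕ, 1 ≤ L → 0 < Real.log L → Real.log L ≤ M * √s →
    ∀ ε₁ : ℝ, 0 < ε₁ → ε₁ ≤ ε₀ → ∀ u : ℕ, (u : ℝ) ≤ 42 * Real.log L → ∀ j : Fin (k + 1) → ℤ → ℕ, (∀ i x, j i x < L) →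
    (∀ i x y, j i (x + 2 ^ u * y) = j i x) →
    EE u (fun x => Set.indicator {x : ℤ | ∃ i : Fin (k + 1), ε₁ * Real.log L <
      |(oc u (x + j i x) : ℝ) - (u / 2 - Real.log L / (2 * Real.log 2) + (i : ℕ) / k * (DD γ * Real.log L))|} 1 x) ≤ ε₁ →
    1 + 2 / √Real.pi * (DD γ * Real.log L / √s) - ε ≤
      EE s (fun x => ((univ.image fun i => (oc s (x + j i x) : ℤ)).card : ℝ)) := by
  classical
  obtain ⟨hr1, hr2⟩ := rr_bounds hγ
  have hγ1 := hγ.1
  have hl2 : (0 : ℝ) < Real.log 2 := Real.log_pos (by norm_num)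
  have hγr : 0 < γ * (rr γ - 1 / 2) := mul_pos (by linarith) (by linarith)
  obtain ⟨D, hDD⟩ : ∃ D : ℝ, D = DD γ := ⟨_, rfl⟩
  have hD : 0 < D := by rw [hDD]; unfold DD; positivity
  have hDM : 0 < D * M := mul_pos hD hM
  obtain ⟨d, hd⟩ : ∃ d : ℝ, d = min (1 / 2) (ε / (32 * (D * M + 1))) := ⟨_, rfl⟩
  have hdp : 0 < d := by rw [hd]; positivity
  have hd2 : d ≤ 1 / 2 := by rw [hd]; exact min_le_left _ _
  have hd3 : d ≤ ε / (32 * (D * M + 1)) := by rw [hd]; exact min_le_right _ _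
  refine ⟨⌈4 * (D * M) / d⌉₊, fun k hkk hk1 => ?_⟩
  have hkr : (1 : ℝ) ≤ k := by exact_mod_cast hk1
  have hkδ : D * M / k ≤ d / 4 := by
    have h3 : 4 * (D * M) / d ≤ k := (Nat.le_ceil _).trans (by exact_mod_cast hkk)
    rw [div_le_iff₀ hdp] at h3
    rw [div_le_iff₀ (by linarith)]
    linarith
  obtain ⟨e, he⟩ : ∃ e : ℝ, e = ε / (16 * k) / (2 * k + 3) := ⟨_, rfl⟩
  have he0 : 0 < e := by rw [he]; positivity
  have hke : ((2 : ℝ) * k + 3) * e = ε / (16 * k) := by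
    rw [he]
    field_simp
  obtain ⟨t₂, -, hqq⟩ := qq_main he0
  obtain ⟨ρ, hρ0, t₃, -, hsurv⟩ := surv_main he0
  obtain ⟨ε₀, hε₀⟩ : ∃ ε₀ : ℝ, ε₀ = min (d / (16 * M)) (min (D / (4 * k)) (min (ε / (64 * M))
    (ε / (64 * (1 + 2 * (D * M)))))) := ⟨_, rfl⟩
  have hε₀0 : 0 < ε₀ := by rw [hε₀]; positivity
  have hε₀1 : ε₀ ≤ d / (16 * M) := by rw [hε₀]; exact min_le_left _ _
  have hε₀2 : ε₀ ≤ D / (4 * k) := by rw [hε₀]; exact (min_le_right _ _).trans (min_le_left _ _)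
  have hε₀3 : ε₀ ≤ ε / (64 * M) := by
    rw [hε₀]
    exact (min_le_right _ _).trans ((min_le_right _ _).trans (min_le_left _ _))
  have hε₀4 : ε₀ ≤ ε / (64 * (1 + 2 * (D * M))) := by
    rw [hε₀]
    exact (min_le_right _ _).trans ((min_le_right _ _).trans (min_le_right _ _))
  obtain ⟨c, hc⟩ : ∃ c : ℝ, c = min ρ d / 8 := ⟨_, rfl⟩
  have hc0 : 0 < c := by rw [hc]; positivity
  have hcρ : c ≤ ρ / 8 := by rw [hc]; have := min_le_left ρ d; linarith
  have hcδ : c ≤ d / 8 := by rw [hc]; have := min_le_right ρ d; linarith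
  obtain ⟨t₄, ht₄⟩ := ev (100 * (M + 1)) c hc0
  refine ⟨ε₀, hε₀0, (2 * t₂) ⊔ (2 * t₃) ⊔ t₄ ⊔ 2, fun t ht L hL hℓ0' hML' ε₁ hε₁0 hε₁ u hu j hj1 hj2 hj3 => ?_⟩
  have hε₁1 : ε₁ ≤ d / (16 * M) := hε₁.trans hε₀1
  have hε₁2 : ε₁ ≤ D / (4 * k) := hε₁.trans hε₀2
  have hε₁3 : ε₁ ≤ ε / (64 * M) := hε₁.trans hε₀3
  have hε₁4 : ε₁ ≤ ε / (64 * (1 + 2 * (D * M))) := hε₁.trans hε₀4
  rw [le_div_iff₀ (by positivity)] at hε₁1 hε₁2 hε₁3 hε₁4 hd3
  simp only [sup_le_iff] at ht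
  obtain ⟨⟨⟨g2, g3⟩, g4⟩, g6⟩ := ht
  have hev := ht₄ t g4
  rw [← hDD]
  obtain ⟨ℓ, hℓ⟩ : ∃ ℓ : ℝ, ℓ = Real.log L := ⟨_, rfl⟩
  obtain ⟨s, hs⟩ : ∃ s : ℝ, s = √(t : ℝ) := ⟨_, rfl⟩
  have hs2 : (t : ℝ) = s ^ 2 := by rw [hs, Real.sq_sqrt (Nat.cast_nonneg t)]
  have htr : (2 : ℝ) ≤ t := by exact_mod_cast g6
  have hs1 : 1 ≤ s := by
    rw [hs, Real.one_le_sqrt]
    linarith
  have hs0 : 0 < s := by linarith
  have hlt : 0 ≤ Real.log t := Real.log_nonneg (by linarith)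
  rw [← hs] at hev hML'
  rw [← hℓ] at hℓ0' hML' hu
  rw [← hℓ, ← hDD] at hj3
  have hu0 : (0 : ℝ) ≤ u := Nat.cast_nonneg u
  obtain ⟨w1, w2, w3, w4, w5, w6⟩ := grow (r := (t : ℝ) - u) hM hρ0 hdp hd2 hc0 hcρ hcδ hs1 hs2 hlt hev hℓ0' hML' hu
    (by ring)
  have hut2 : u ≤ t := by
    have : (u : ℝ) ≤ t := by linarith
    exact_mod_cast this
  obtain ⟨r, hr⟩ := Nat.exists_eq_add_of_le hut2
  have hrr : (t : ℝ) - u = r := by
    have : (t : ℝ) = u + r := by exact_mod_cast hr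
    linarith
  rw [hrr] at w2 w3 w4 w5
  have hrt : (r : ℝ) ≤ t := by linarith
  have hr2' : t ≤ 2 * r := by
    have : (t : ℝ) ≤ 2 * r := by linarith
    exact_mod_cast this
  have hr1' : 1 ≤ r := by omega
  have hoff : ∀ x : ℤ, Off ρ r (fun i => oc u (x + j i x)) (fun i => T^[u] (x + j i x)) := fun x =>
    off_all u r t L hL hr hr1' x (fun i => j i x) (fun i => hj1 i x) w4 (by rw [← hℓ]; exact w5)
  obtain ⟨S, hS⟩ : ∃ S : Set ℤ, S = {x : ℤ | ∃ i : Fin (k + 1), ε₁ * ℓ < |(oc u (x + j i x) : ℝ) -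
    ((u : ℝ) / 2 - ℓ / (2 * Real.log 2) + ((i : ℕ) : ℝ) / k * (D * ℓ))|} := ⟨_, rfl⟩
  rw [← hS] at hj3
  have hDk : D * ℓ / k ≤ d / 4 * s := by
    calc D * ℓ / k ≤ D * (M * s) / k := by gcongr
      _ = D * M / k * s := by ring
      _ ≤ d / 4 * s := by gcongr
  have hεℓ : 2 * (ε₁ * ℓ) ≤ d / 8 * s := by
    calc 2 * (ε₁ * ℓ) ≤ 2 * (ε₁ * (M * s)) := by gcongr
      _ = 2 * (ε₁ * (16 * M)) / 16 * s := by ring
      _ ≤ 2 * d / 16 * s := by gcongr
      _ = d / 8 * s := by ring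
  have hds : 0 < d * s := by positivity
  have hℓs : ℓ / s ≤ M := by
    rw [div_le_iff₀ hs0]
    exact hML'
  obtain ⟨cE, hcE⟩ : ∃ cE : ℝ, cE = 1 + 2 / √Real.pi * (D * ℓ / s) := ⟨_, rfl⟩
  have hpi : 2 / √Real.pi ≤ 2 := by
    have h6 : (1 : ℝ) ≤ √Real.pi := by
      rw [Real.one_le_sqrt]
      linarith [Real.pi_gt_three]
    rw [div_le_iff₀ (by linarith)]
    linarith
  have hcE0 : 0 ≤ cE := by rw [hcE]; positivity
  have hcE1 : cE ≤ 1 + 2 * (D * M) := by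
    rw [hcE]
    have h3 : D * ℓ / s ≤ D * M := by
      rw [mul_div_assoc]
      gcongr
    have h4 : 0 ≤ D * ℓ / s := by positivity
    have h5 : 2 / √Real.pi * (D * ℓ / s) ≤ 2 * (D * M) := mul_le_mul hpi h3 h4 (by norm_num)
    linarith
  -- the good classes
  have hgood : ∀ x : ℤ, x ∉ S → cE - 5 * ε / 32 ≤
      EE r (fun N => ((univ.image fun i => lP (oc u (x + j i x), T^[u] (x + j i x)) r N).card : ℝ)) := by
    intro x hx
    have hx' : ∀ i : Fin (k + 1), |(oc u (x + j i x) : ℝ) -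
        (((u : ℝ) / 2 - ℓ / (2 * Real.log 2)) + ((i : ℕ) : ℝ) / k * (D * ℓ))| ≤ ε₁ * ℓ := by
      intro i
      by_contra hcon
      push Not at hcon
      exact hx (by rw [hS]; exact ⟨i, hcon⟩)
    obtain ⟨f1, f2⟩ := good_facts hk1 (fun i => oc u (x + j i x)) _ _ _ hx'
    have hDk2 : 2 * (ε₁ * ℓ) ≤ D * ℓ / k := by
      rw [le_div_iff₀ (by linarith)]
      calc 2 * (ε₁ * ℓ) * k = (ε₁ * (4 * k)) * ℓ / 2 := by ring
        _ ≤ D * ℓ / 2 := by gcongr
        _ ≤ D * ℓ := by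
          have : 0 < D * ℓ := by positivity
          linarith
    have f3 : ∀ i : Fin k, oc u (x + j i.castSucc x) ≤ oc u (x + j i.succ x) := by
      intro i
      have h3 := (abs_le.1 (f1 i)).1
      have h4 : (oc u (x + j i.castSucc x) : ℝ) ≤ oc u (x + j i.succ x) := by linarith
      exact_mod_cast h4
    have hm := lev_mean r e (fun i => (oc u (x + j i x), T^[u] (x + j i x))) f3
      (fun i => hqq r (by omega) _) (fun i => by
        refine hsurv r (by omega) _ ?_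
        unfold be sP
        simp only
        rw [div_le_iff₀ (by positivity), mul_comm (Real.exp _)]
        have := (hoff x).2 i.castSucc i.succ (f3 i)
        push_cast
        exact this)
    rw [hke] at hm
    refine le_trans ?_ hm
    have hes := erf_sum (r := r) (t := t) (by omega) hr1' (d := d) (fun i => ((oc u (x + j i x) : ℕ) : ℤ))
      (fun i => by exact_mod_cast f3 i) (fun i => by
        push_cast
        rw [← hs]
        have := (abs_le.1 (f1 i)).2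
        linarith)
    push_cast at hes
    rw [← hs] at hes
    have hlow := low_calc hk1 hD hM hε hε₁0 hdp hd2 hℓ0' hs0 hℓs hε₁3 hd3 (abs_le.1 f2).1
    rw [← hcE] at hlow
    simp only
    linarith
  rw [← hℓ, ← hs, ← hcE, hr, EE_split]
  have h1 : ∀ x : ℤ, (cE - 5 * ε / 32) - cE * Set.indicator S 1 x ≤
      EE r (fun N => ((univ.image fun i => (oc (u + r) ((2 ^ u * N + x) + j i (2 ^ u * N + x)) : ℤ)).card : ℝ)) := by
    intro x
    simp only [net_lev u r j hj2]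
    by_cases hx : x ∈ S
    · rw [Set.indicator_of_mem hx]
      have h2 : 0 ≤ EE r (fun N => ((univ.image fun i => lP (oc u (x + j i x), T^[u] (x + j i x)) r N).card : ℝ)) :=
        Pool.Agent.Q74.KP.EE_nonneg r fun N => Nat.cast_nonneg _
      simp only [Pi.one_apply, mul_one]
      linarith
    · rw [Set.indicator_of_notMem hx, mul_zero, sub_zero]
      exact hgood x hx
  refine le_trans ?_ (EE_mono u h1)
  rw [EE_sub, EE_const, EE_mul]
  have h2 : cE * EE u (fun x => Set.indicator S 1 x) ≤ (1 + 2 * (D * M)) * ε₁ := by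
    have h3 : 0 ≤ EE u (fun x => Set.indicator S (1 : ℤ → ℝ) x) :=
      Pool.Agent.Q74.KP.EE_nonneg u fun x => Set.indicator_nonneg (fun _ _ => zero_le_one) x
    exact mul_le_mul hcE1 hj3 h3 (by positivity)
  linarith

/-- the pointwise bound -/
theorem tight_pt (L s : ℕ) (x : ℤ) {k : ℕ} (j : Fin (k + 1) → ℕ) (hj : ∀ i, j i < L) :
    Set.indicator {x : ℤ | LS L s x ≠ univ.image (fun i => (oc s (x + j i) : ℤ)) ∨
      ∃ i i' : ℕ, i < L ∧ i' < L ∧ oc s (x + i) = oc s (x + i') ∧ T^[s] (x + i) ≠ T^[s] (x + i')} (1 : ℤ → ℝ) x ≤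
      ((VV L s x).card : ℝ) - ((univ.image (fun i => (oc s (x + j i) : ℤ))).card : ℝ) := by
  classical
  have hsub : univ.image (fun i => (oc s (x + j i) : ℤ)) ⊆ LS L s x := by
    intro y hy
    obtain ⟨i, -, rfl⟩ := mem_image.1 hy
    unfold LS
    exact mem_image.2 ⟨j i, mem_range.2 (hj i), rfl⟩
  have hnx : ∀ i : ℕ, nx s x (0, (i : ℤ)) = (oc s (x + i), T^[s] (x + i)) := by
    intro i
    unfold nx
    simp
  have hLV : LS L s x = (VV L s x).image (fun z => (z.1 : ℤ)) := by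
    unfold LS VV
    rw [image_image]
    congr 1
    funext i
    simp only [Function.comp_apply, hnx]
  have h1 := card_le_card hsub
  have h2 : (LS L s x).card ≤ (VV L s x).card := by
    rw [hLV]
    exact card_image_le
  by_cases hx : x ∈ {x : ℤ | LS L s x ≠ univ.image (fun i => (oc s (x + j i) : ℤ)) ∨
      ∃ i i' : ℕ, i < L ∧ i' < L ∧ oc s (x + i) = oc s (x + i') ∧ T^[s] (x + i) ≠ T^[s] (x + i')}
  · rw [Set.indicator_of_mem hx]
    have h3 : (univ.image (fun i => (oc s (x + j i) : ℤ))).card + 1 ≤ (VV L s x).card := by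
      by_contra hcon
      have e1 : (LS L s x).card = (univ.image (fun i => (oc s (x + j i) : ℤ))).card := by omega
      have e2 : (LS L s x).card = (VV L s x).card := by omega
      have e3 : univ.image (fun i => (oc s (x + j i) : ℤ)) = LS L s x := eq_of_subset_of_card_le hsub e1.le
      have e4 : Set.InjOn (fun z : ℕ × ℤ => (z.1 : ℤ)) (VV L s x) := by
        rw [← card_image_iff, ← hLV]
        exact e2
      rcases hx with h | ⟨i, i', hi, hi', h5, h6⟩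
      · exact h e3.symm
      · have m1 : nx s x (0, (i : ℤ)) ∈ (VV L s x : Set (ℕ × ℤ)) := by
          unfold VV
          exact mem_coe.2 (mem_image.2 ⟨i, mem_range.2 hi, rfl⟩)
        have m2 : nx s x (0, (i' : ℤ)) ∈ (VV L s x : Set (ℕ × ℤ)) := by
          unfold VV
          exact mem_coe.2 (mem_image.2 ⟨i', mem_range.2 hi', rfl⟩)
        have m3 := e4 m1 m2 (by simp only [hnx, h5])
        rw [hnx, hnx] at m3
        exact h6 (congrArg Prod.snd m3)
    have h4 : (((univ.image (fun i => (oc s (x + j i) : ℤ))).card : ℝ)) + 1 ≤ ((VV L s x).card : ℝ) := by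
      exact_mod_cast h3
    simp only [Pi.one_apply]
    linarith
  · rw [Set.indicator_of_notMem hx]
    have h4 : (((univ.image (fun i => (oc s (x + j i) : ℤ))).card : ℝ)) ≤ ((VV L s x).card : ℝ) := by
      exact_mod_cast h1.trans h2
    linarith

/-- job TightW (`S_CwMean` is not used) -/
theorem tightW (_ : S_CwMean) (h2 : S_Net) (h3 : S_MeanUp) : S_TightW := by
  classical
  intro γ hγ κ M₀ δ ε hκ hM₀ hδ hε
  obtain ⟨hr1, hr2⟩ := rr_bounds hγ
  have hγ1 := hγ.1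
  have hl2 : (0 : ℝ) < Real.log 2 := Real.log_pos (by norm_num)
  have hγr : 0 < γ * (rr γ - 1 / 2) := mul_pos (by linarith) (by linarith)
  have hD : 0 < DD γ := by unfold DD; positivity
  obtain ⟨M, hM⟩ : ∃ M : ℝ, M = M₀ / √δ := ⟨_, rfl⟩
  have hδs : 0 < √δ := Real.sqrt_pos.2 hδ
  have hMp : 0 < M := by rw [hM]; positivity
  obtain ⟨k₀, hk₀⟩ := one_time hγ M (ε / 2) hMp (by positivity)
  obtain ⟨k, hk⟩ : ∃ k : ℕ, k = k₀ + ⌈DD γ * M₀ / ε⌉₊ + 1 := ⟨_, rfl⟩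
  have hk1 : 1 ≤ k := by omega
  have hkr : (1 : ℝ) ≤ k := by exact_mod_cast hk1
  obtain ⟨ε₀, hε₀, t₁, ht₁⟩ := hk₀ k (by omega) hk1
  obtain ⟨ε₁, hε₁⟩ : ∃ ε₁ : ℝ, ε₁ = min ε₀ (ε / k) := ⟨_, rfl⟩
  have hε₁0 : 0 < ε₁ := by rw [hε₁]; positivity
  have hε₁1 : ε₁ ≤ ε₀ := by rw [hε₁]; exact min_le_left _ _
  have hε₁2 : ε₁ ≤ ε / k := by rw [hε₁]; exact min_le_right _ _
  obtain ⟨L₀, hnet⟩ := h2 γ hγ k hk1 ε₁ hε₁0
  obtain ⟨t₂, hup⟩ := h3 γ hγ κ M (ε / 2) hκ hMp (by positivity)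
  refine ⟨k, ⌈(t₁ + t₂ : ℕ) / δ⌉₊ ⊔ ⌈(Real.log (L₀ + 1) / κ) ^ 2⌉₊ ⊔ 1, hk1, ?_, fun t ht L hL hκL hML => ?_⟩
  · have h4 : DD γ * M₀ / ε ≤ k := by
      refine (Nat.le_ceil _).trans ?_
      exact_mod_cast (by omega : ⌈DD γ * M₀ / ε⌉₊ ≤ k)
    rw [div_le_iff₀ hε] at h4
    linarith
  simp only [sup_le_iff] at ht
  obtain ⟨⟨g1, g2⟩, g3⟩ := ht
  have htr : (1 : ℝ) ≤ t := by exact_mod_cast g3
  have hst : 1 ≤ √(t : ℝ) := by rw [Real.one_le_sqrt]; exact htr
  have hℓ0 : 0 < Real.log L := lt_of_lt_of_le (by positivity) hκL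
  have hLr : (1 : ℝ) ≤ L := by exact_mod_cast hL
  have hLL : L₀ ≤ L := by
    have h3 : Real.log (L₀ + 1) / κ ≤ √(t : ℝ) := by
      by_cases hneg : Real.log (L₀ + 1) / κ ≤ 0
      · linarith
      · push Not at hneg
        have h4 : (Real.log (L₀ + 1) / κ) ^ 2 ≤ √(t : ℝ) ^ 2 := by
          rw [Real.sq_sqrt (Nat.cast_nonneg t)]
          exact (Nat.le_ceil _).trans (by exact_mod_cast g2)
        exact le_of_sq_le_sq h4 (by linarith)
    rw [div_le_iff₀ hκ] at h3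
    have h4 : Real.log (L₀ + 1) ≤ Real.log L := by linarith
    have h5 : ((L₀ : ℝ) + 1) ≤ L := (Real.log_le_log_iff (by positivity) (by linarith)).1 h4
    have h6 : L₀ + 1 ≤ L := by exact_mod_cast h5
    omega
  obtain ⟨u, hu, j, hj1, hj2, hj3⟩ := hnet L hLL
  refine ⟨u, hu, j, hj1, hj2, ?_, fun s hs1 hs2 => ?_⟩
  · have h4 : EE u (fun x => Set.indicator {x : ℤ | ∃ i : Fin (k + 1), ε / k * Real.log L <
        |(oc u (x + j i x) : ℝ) - (u / 2 - Real.log L / (2 * Real.log 2) + (i : ℕ) / k * (DD γ * Real.log L))|}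
        (1 : ℤ → ℝ) x) ≤ EE u (fun x => Set.indicator {x : ℤ | ∃ i : Fin (k + 1), ε₁ * Real.log L <
        |(oc u (x + j i x) : ℝ) - (u / 2 - Real.log L / (2 * Real.log 2) + (i : ℕ) / k * (DD γ * Real.log L))|}
        (1 : ℤ → ℝ) x) := by
      refine EE_mono u fun x => ?_
      refine Set.indicator_le_indicator_of_subset ?_ (fun _ => zero_le_one) x
      rintro x ⟨i, hi⟩
      refine ⟨i, lt_of_le_of_lt ?_ hi⟩
      exact mul_le_mul_of_nonneg_right hε₁2 hℓ0.le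
    refine h4.trans (hj3.trans (hε₁2.trans ?_))
    exact div_le_self hε.le hkr
  · have hs1' : (t₁ + t₂ : ℕ) ≤ s := by
      have h4 : ((t₁ + t₂ : ℕ) : ℝ) / δ ≤ t := (Nat.le_ceil _).trans (by exact_mod_cast g1)
      rw [div_le_iff₀ hδ] at h4
      have h5 : ((t₁ + t₂ : ℕ) : ℝ) ≤ s := by linarith
      exact_mod_cast h5
    have hst1 : √(s : ℝ) ≤ √(t : ℝ) := Real.sqrt_le_sqrt (by exact_mod_cast hs2)
    have hst2 : √δ * √(t : ℝ) ≤ √(s : ℝ) := by
      rw [← Real.sqrt_mul hδ.le]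
      exact Real.sqrt_le_sqrt hs1
    have hκs : κ * √(s : ℝ) ≤ Real.log L := by
      have := mul_le_mul_of_nonneg_left hst1 hκ.le
      linarith
    have hMs : Real.log L ≤ M * √(s : ℝ) := by
      have h4 : M * (√δ * √(t : ℝ)) = M₀ * √(t : ℝ) := by
        rw [hM]
        field_simp
      have h5 := mul_le_mul_of_nonneg_left hst2 hMp.le
      linarith
    have b1 := ht₁ s (by omega) L hL hℓ0 hMs ε₁ hε₁0 hε₁1 u hu j hj1 hj2 hj3
    have b2 := hup s (by omega) L hL hκs hMs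
    have b3 : ∀ x : ℤ, Set.indicator {x : ℤ | LS L s x ≠ univ.image (fun i => (oc s (x + j i x) : ℤ)) ∨
        ∃ i i' : ℕ, i < L ∧ i' < L ∧ oc s (x + i) = oc s (x + i') ∧ T^[s] (x + i) ≠ T^[s] (x + i')} (1 : ℤ → ℝ) x ≤
        ((VV L s x).card : ℝ) - ((univ.image (fun i => (oc s (x + j i x) : ℤ))).card : ℝ) := by
      intro x
      have h4 := tight_pt L s x (fun i => j i x) (fun i => hj1 i x)
      refine le_trans (le_of_eq ?_) h4
      unfold Set.indicator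
      rfl
    refine (EE_mono s b3).trans ?_
    rw [EE_sub]
    linarith

end Pool.Agent.Q151.BT
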