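import Pool.Agent.Q74.BT.Stm

/-! # Project BT, job MeanW: means over intervals -/

set_option autoImplicit false

namespace Pool.Agent.Q151.BT

open Finset
open Pool.Agent.Q158.Pair (T)
open Pool.Agent.Q74.AR (oc oc_per)
open Pool.Agent.Q74.KP (EE Pe)
open Pool.Agent.Q74.BL (nx T_add sum_per_le NV fam NV_pos lowP mean_low cnt cnt_eq mem_fam)
open Pool.Agent.Q74.BT

theorem nx0 (t : ℕ) (x j : ℤ) : nx t x (0, j) = (oc t (x + j), T^[t] (x + j)) := by
  unfold nx
  simp

theorem Vn_le_card (L t : ℕ) (n : ℤ) : Vn L t n ≤ (VV L t n).card := by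
  unfold Vn VV
  have h : (range L).image (fun j : ℕ => T^[t] (n + j)) =
      ((range L).image (fun j : ℕ => nx t n (0, (j : ℤ)))).image Prod.snd := by
    rw [image_image]
    apply image_congr
    intro j _
    simp only [Function.comp_apply, nx0]
  rw [h]
  exact card_image_le

theorem Vn_pos {L : ℕ} (t : ℕ) (n : ℤ) (hL : 1 ≤ L) : 1 ≤ Vn L t n := by
  unfold Vn
  apply Finset.card_pos.2
  exact Finset.Nonempty.image ⟨0, mem_range.2 hL⟩ _

theorem card_pos' {L : ℕ} (t : ℕ) (n : ℤ) (hL : 1 ≤ L) : 1 ≤ (VV L t n).card := by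
  unfold VV
  apply Finset.card_pos.2
  exact Finset.Nonempty.image ⟨0, mem_range.2 hL⟩ _

/-- the number of forms is periodic -/
theorem card_per (L t : ℕ) : Pe t (fun x => ((VV L t x).card : ℝ)) := by
  intro x j
  simp only
  have h : VV L t (x + 2 ^ t * j) = (VV L t x).image (fun z : ℕ × ℤ => (z.1, z.2 + 3 ^ z.1 * j)) := by
    unfold VV
    rw [image_image]
    apply image_congr
    intro i _
    simp only [Function.comp_apply, nx0]
    have e : x + 2 ^ t * j + (i : ℤ) = (x + i) + 2 ^ t * j := by ring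
    rw [e, oc_per, T_add]
  rw [h, card_image_of_injective]
  rintro ⟨a, b⟩ ⟨a', b'⟩ h'
  simp only [Prod.mk.injEq] at h'
  obtain ⟨h1, h2⟩ := h'
  subst h1
  rw [Prod.mk.injEq]
  exact ⟨rfl, by linarith⟩

/-- the block contains a symmetric family -/
theorem NV_le_Vn {B L t : ℕ} (n : ℤ) (h : 2 * B + 1 ≤ L) : NV 0 B t (n + B) ≤ Vn L t n := by
  unfold NV Vn
  apply card_le_card
  intro y hy
  obtain ⟨⟨a, b⟩, hz, rfl⟩ := mem_image.1 hy
  obtain ⟨ha, hb1, hb2⟩ := mem_fam.1 hz
  have ha0 : a = 0 := by omega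
  subst ha0
  refine mem_image.2 ⟨(b + B).toNat, mem_range.2 (by omega), ?_⟩
  simp only [pow_zero, one_mul]
  congr 1
  omega

theorem sum_shiftI (f : ℤ → ℝ) (M : ℤ) (W : ℕ) (B : ℤ) :
    ∑ n ∈ Ico (M + B) (M + B + W), f n = ∑ n ∈ Ico M (M + W), f (n + B) := by
  have e : Ico (M + B) (M + B + (W : ℤ)) = (Ico M (M + W)).image (fun n => n + B) := by
    ext y
    rw [mem_image]
    constructor
    · intro hy
      rw [mem_Ico] at hy
      exact ⟨y - B, mem_Ico.2 ⟨by linarith, by linarith⟩, by ring⟩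
    · rintro ⟨n, hn, rfl⟩
      rw [mem_Ico] at hn ⊢
      exact ⟨by linarith [hn.1], by linarith [hn.2]⟩
  rw [e, sum_image]
  intro a _ b _ hab
  simpa using hab

/-- upper bound over intervals -/
theorem up_int {L t : ℕ} {X : ℝ} (hL : 1 ≤ L) (hX : EE t (fun x => ((VV L t x).card : ℝ) - 1) ≤ X)
    (M : ℤ) (W : ℕ) (hW : 2 ^ t ≤ W) : ∑ n ∈ Ico M (M + W), (Vn L t n : ℝ) ≤ (1 + 2 * X) * W := by
  have h1 : ∑ n ∈ Ico M (M + W), (Vn L t n : ℝ) ≤
      ∑ n ∈ Ico M (M + (W : ℤ)), (1 + (((VV L t n).card : ℝ) - 1)) := by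
    apply sum_le_sum
    intro n _
    have : (Vn L t n : ℝ) ≤ (VV L t n).card := by exact_mod_cast Vn_le_card L t n
    linarith
  rw [sum_add_distrib, sum_const, Int.card_Ico, nsmul_eq_mul, mul_one] at h1
  have h2 := sum_per_le (t := t) (h := fun x => ((VV L t x).card : ℝ) - 1)
    (fun x j => by simp only [card_per L t x j])
    (fun x => by
      have : (1 : ℝ) ≤ (VV L t x).card := by exact_mod_cast card_pos' t x hL
      linarith) M W hW
  have e : (((M + (W : ℤ) - M).toNat : ℕ) : ℝ) = W := by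
    congr 1
    omega
  rw [e] at h1
  have h3 : 2 * EE t (fun x => ((VV L t x).card : ℝ) - 1) * W ≤ 2 * X * W :=
    mul_le_mul_of_nonneg_right (by linarith) (Nat.cast_nonneg W)
  calc _ ≤ _ := h1
    _ ≤ (W : ℝ) + 2 * X * W := by linarith
    _ = _ := by ring

theorem low_sum {B L t : ℕ} (h : 2 * B + 1 ≤ L) (M : ℤ) (W : ℕ) :
    ∑ n ∈ Ico (M + B) (M + B + (W : ℤ)), (NV 0 B t n : ℝ) ≤ ∑ n ∈ Ico M (M + W), (Vn L t n : ℝ) := by
  rw [sum_shiftI]
  apply sum_le_sum
  intro n _
  exact_mod_cast NV_le_Vn n h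

theorem meanW (h : S_Mean) : S_MeanW := by
  intro γ hγ ε hε
  obtain ⟨C, hC, hup⟩ := h γ hγ ε hε
  obtain ⟨c₁, hc₁, hlow⟩ := lowP
  obtain ⟨c₂, C₂, hc₂, hC₂, hmean⟩ := mean_low
  have hγ41 := hγ.1
  obtain ⟨β, hβ⟩ : ∃ β, β = min (1 / 2) (20 / C₂) := ⟨_, rfl⟩
  have hβ0 : 0 < β := by rw [hβ]; exact lt_min (by norm_num) (by positivity)
  have hβ1 : β ≤ 1 / 2 := by rw [hβ]; exact min_le_left _ _
  have hβ2 : C₂ * β ≤ 20 := by
    have : β ≤ 20 / C₂ := by rw [hβ]; exact min_le_right _ _
    rw [le_div_iff₀ hC₂] at this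
    linarith
  obtain ⟨Λ, hΛ⟩ : ∃ Λ : ℝ, Λ = 2 + C₂ / 10 := ⟨_, rfl⟩
  have hΛ0 : 0 < Λ := by rw [hΛ]; positivity
  refine ⟨min (c₂ * β) (c₁ / Λ), 2 * C, by positivity, by positivity, ?_⟩
  intro L t hL ht M W hW
  have hL3 : (3 : ℝ) ≤ L := by exact_mod_cast hL
  have hL0 : (0 : ℝ) < L := by linarith
  have hlog3 : 1 < Real.log 3 := by
    have := Real.log_three_gt_d9
    linarith
  have hlogL : 1 < Real.log L := lt_of_lt_of_le hlog3 (Real.log_le_log (by norm_num) hL3)
  have ht1' : (1 : ℝ) < t := by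
    have : 41 * 1 < (γ + ε) * Real.log L := by
      apply mul_lt_mul'' (by linarith) hlogL (by norm_num) (by norm_num)
    linarith
  have ht1 : 1 ≤ t := by
    have : (1 : ℝ) < t := ht1'
    exact_mod_cast this.le
  have ht0 : (0 : ℝ) < t := by linarith
  have hst : 0 < √(t : ℝ) := Real.sqrt_pos.2 ht0
  have hW0 : (0 : ℝ) ≤ W := Nat.cast_nonneg W
  have h2tW : 2 ^ t ≤ W := by
    refine le_trans ?_ hW
    exact Nat.le_mul_of_pos_left _ (by omega)
  constructor
  · by_cases hcase : 6 ≤ L ∧ C₂ ≤ 10 * Real.log L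
    · obtain ⟨hL6, hCL⟩ := hcase
      have hL6' : (6 : ℝ) ≤ L := by exact_mod_cast hL6
      obtain ⟨B, hB⟩ : ∃ B : ℕ, B = ⌊(L : ℝ) ^ β⌋₊ := ⟨_, rfl⟩
      have hLβ : (L : ℝ) ^ β ≤ √L := by
        rw [Real.sqrt_eq_rpow]
        exact Real.rpow_le_rpow_of_exponent_le (by linarith) hβ1
      have hLβ1 : 1 ≤ (L : ℝ) ^ β := Real.one_le_rpow (by linarith) hβ0.le
      have hB1 : (B : ℝ) ≤ (L : ℝ) ^ β := by
        rw [hB]
        exact Nat.floor_le (by positivity)
      have hB2 : (L : ℝ) ^ β < B + 1 := by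
        rw [hB]
        exact Nat.lt_floor_add_one _
      have hBpos : 1 ≤ B := by
        rw [hB]
        exact Nat.le_floor (by exact_mod_cast hLβ1)
      have hsq : √(L : ℝ) * √L = L := Real.mul_self_sqrt hL0.le
      have hsL : (2.4 : ℝ) ≤ √L := by
        apply Real.le_sqrt_of_sq_le
        norm_num
        linarith
      have hBL : 2 * B + 1 ≤ L := by
        have : (2 : ℝ) * B + 1 < L + 1 := by nlinarith
        have h2 : ((2 * B + 1 : ℕ) : ℝ) < ((L + 1 : ℕ) : ℝ) := by push_cast; exact this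
        have h3 := Nat.cast_lt.1 h2
        omega
      have hlogB : Real.log (1 + (B : ℝ)) ≤ 1 + β * Real.log L := by
        have h3 : Real.log (1 + (B : ℝ)) ≤ Real.log (2 * (L : ℝ) ^ β) :=
          Real.log_le_log (by positivity) (by linarith)
        rw [Real.log_mul (by norm_num) (by positivity), Real.log_rpow hL0] at h3
        have := Real.log_two_lt_d9
        linarith
      have hlogB2 : β * Real.log L ≤ Real.log (1 + (B : ℝ)) := by
        rw [← Real.log_rpow hL0]
        exact Real.log_le_log (by positivity) (by linarith)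
      have hm := hmean 0 B t (by
        intro h0
        rw [Prod.mk.injEq] at h0
        omega) ht1 (by
        have h4 : C₂ * (β * Real.log L) ≤ 20 * Real.log L := by
          rw [← mul_assoc]
          exact mul_le_mul_of_nonneg_right hβ2 (by linarith)
        have h5 : C₂ * Real.log (1 + (B : ℝ)) ≤ C₂ * (1 + β * Real.log L) :=
          mul_le_mul_of_nonneg_left hlogB hC₂.le
        have h6 : 41 * Real.log L ≤ (γ + ε) * Real.log L :=
          mul_le_mul_of_nonneg_right (by linarith) (by linarith)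
        simp only [Nat.cast_zero, add_zero, Real.log_one]
        nlinarith) (M + B) W (by simpa using hW)
      have hs := low_sum (t := t) hBL M W
      refine le_trans ?_ (hm.trans hs)
      apply mul_le_mul_of_nonneg_right _ hW0
      have h7 : min (c₂ * β) (c₁ / Λ) * (Real.log L / √t) ≤ c₂ * β * (Real.log L / √t) :=
        mul_le_mul_of_nonneg_right (min_le_left _ _) (by positivity)
      have h8 : c₂ * β * (Real.log L / √t) ≤
          c₂ * ((1 + ((0 : ℕ) : ℝ) + Real.log (1 + (B : ℝ))) / √t) := by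
        rw [mul_assoc]
        apply mul_le_mul_of_nonneg_left _ hc₂.le
        rw [mul_div_assoc']
        apply div_le_div_of_nonneg_right _ hst.le
        push_cast
        linarith
      linarith
    · have hLΛ : Real.log L ≤ Λ := by
        rw [hΛ]
        by_cases h6 : 6 ≤ L
        · have : ¬ C₂ ≤ 10 * Real.log L := fun h => hcase ⟨h6, h⟩
          push Not at this
          linarith
        · have h7 : (L : ℝ) ≤ 6 := by exact_mod_cast (by omega : L ≤ 6)
          have h8 : Real.log L ≤ Real.log 6 := Real.log_le_log hL0 h7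
          have h9 : Real.log 6 = Real.log 2 + Real.log 3 := by
            rw [← Real.log_mul (by norm_num) (by norm_num)]
            norm_num
          have := Real.log_two_lt_d9
          have := Real.log_three_lt_d9
          have : 0 < C₂ / 10 := by positivity
          linarith
      have hl := hlow 0 1 t (by
        intro h0
        rw [Prod.mk.injEq] at h0
        omega) ht1 (M + (1 : ℕ)) W hW
      rw [cnt_eq] at hl
      have h4 : cnt 0 1 t (M + (1 : ℕ)) W ≤
          ∑ n ∈ Ico (M + (1 : ℕ)) (M + (1 : ℕ) + (W : ℤ)), ((NV 0 1 t n : ℝ) - 1) := by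
        unfold cnt
        apply sum_le_sum
        intro n _
        split_ifs with h
        · have : (2 : ℝ) ≤ NV 0 1 t n := by exact_mod_cast h
          linarith
        · have : (1 : ℝ) ≤ NV 0 1 t n := by exact_mod_cast NV_pos 0 1 t n
          linarith
      have e : (((M + ((1 : ℕ) : ℤ) + (W : ℤ) - (M + ((1 : ℕ) : ℤ))).toNat : ℕ) : ℝ) = W := by
        congr 1
        omega
      rw [sum_sub_distrib, sum_const, Int.card_Ico, nsmul_eq_mul, mul_one, e] at h4
      have hs := low_sum (t := t) (B := 1) (L := L) (by omega) M W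
      have h9 : 1 / √(t : ℝ) ≤
          min 1 ((1 + ((0 : ℕ) : ℝ) + Real.log (1 + ((1 : ℕ) : ℝ))) / √t) := by
        apply le_min
        · rw [div_le_one hst]
          rw [Real.one_le_sqrt]
          exact ht1'.le
        · apply div_le_div_of_nonneg_right _ hst.le
          have : 0 ≤ Real.log (1 + ((1 : ℕ) : ℝ)) := Real.log_nonneg (by norm_num)
          push_cast at this ⊢
          linarith
      have h10 : min (c₂ * β) (c₁ / Λ) * (Real.log L / √t) ≤
          c₁ * min 1 ((1 + ((0 : ℕ) : ℝ) + Real.log (1 + ((1 : ℕ) : ℝ))) / √t) := by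
        have h11 : min (c₂ * β) (c₁ / Λ) * (Real.log L / √t) ≤ c₁ / Λ * (Λ / √t) := by
          apply mul_le_mul (min_le_right _ _) _ (by positivity) (by positivity)
          exact div_le_div_of_nonneg_right hLΛ hst.le
        have e2 : c₁ / Λ * (Λ / √t) = c₁ * (1 / √t) := by
          field_simp
        rw [e2] at h11
        exact h11.trans (mul_le_mul_of_nonneg_left h9 hc₁.le)
      have h12 := mul_le_mul_of_nonneg_right h10 hW0
      have e3 : (1 + min (c₂ * β) (c₁ / Λ) * (Real.log L / √t)) * W =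
          W + min (c₂ * β) (c₁ / Λ) * (Real.log L / √t) * W := by ring
      rw [e3]
      have h13 := h12.trans (hl.trans h4)
      have h14 := hs
      generalize (∑ n ∈ Ico (M + ((1 : ℕ) : ℤ)) (M + ((1 : ℕ) : ℤ) + (W : ℤ)),
        ((NV 0 1 t n : ℕ) : ℝ)) = S at h13 h14
      linarith
  · have := up_int (by omega) (hup L t (by omega) ht) M W h2tW
    calc _ ≤ _ := this
      _ = _ := by ring

end Pool.Agent.Q151.BT
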