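import Pool.Agent.Q74.BT.Stm4
import Pool.Agent.Q225.SF.Bad

/-! # Project BT (helper74), part 4, job OffStep: after `s` steps the offsets are still small -/

set_option autoImplicit false

namespace Pool.Agent.Q151.BT

open Finset
open Pool.Agent.Q74.SF
open Pool.Agent.Q74.BT
open Pool.Agent.Q74.KP
open Pool.Agent.Q74.AR (oc of oc_per of_per of_nonneg bE bE_mul bE_sq sum_oc sum_of)
open Pool.Agent.Q158.Pair (T)
open Pool.Agent.Q225.SF (EE_cheb EE_of T_of)

/-- the deterministic part -/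
theorem off_det {k : ℕ} {ρ' δ A : ℝ} (hρ : 0 < ρ') (hδ : 0 < δ) (hA : 0 < A) {t s r : ℕ}
    (hr1 : (1 : ℝ) ≤ r) (hδr : δ * t ≤ r) (hrt : r ≤ t) (hst : s ≤ t)
    (c1 : 2 * A * √t * Real.log t ≤ ρ' * δ / 2 * t) (c2 : Real.log 3 ≤ ρ' * δ * t / 4)
    (c3 : (s / 2 + A * √s) * Real.log 3 ≤ s * Real.log 2)
    {a : Fin k → ℕ} {b : Fin k → ℤ} (h0 : Off (ρ' * δ / 4) t a b) (x : ℤ)
    (g1 : ∀ i, |(oc s (3 ^ a i * x + b i) : ℝ) - s / 2| ≤ A * √s)
    (g2 : ∀ i, of s (3 ^ a i * x + b i) ≤ Real.exp (ρ' * r) / 3) :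
    Off ρ' r (fun i => a i + oc s (3 ^ a i * x + b i)) (fun i => T^[s] (3 ^ a i * x + b i)) := by
  have hrt' : (r : ℝ) ≤ t := by exact_mod_cast hrt
  have hst' : (s : ℝ) ≤ t := by exact_mod_cast hst
  have hlogr : 0 ≤ Real.log r := Real.log_nonneg hr1
  have hlogrt : Real.log r ≤ Real.log t := Real.log_le_log (by linarith) hrt'
  have hρδ : ρ' * δ / 4 * t ≤ ρ' * r / 4 := by
    have := mul_le_mul_of_nonneg_left hδr hρ.le
    linarith
  have hρδ2 : ρ' * δ / 2 * t ≤ ρ' * r / 2 := by linarith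
  constructor
  · intro i j
    have h4 : ((oc s (3 ^ a j * x + b j) : ℝ) - oc s (3 ^ a i * x + b i)) ≤ 2 * A * √s := by
      have := (abs_le.1 (g1 i)).1
      have := (abs_le.1 (g1 j)).2
      linarith
    have h5 : ((oc s (3 ^ a j * x + b j) : ℝ) - oc s (3 ^ a i * x + b i)) * Real.log r ≤ ρ' * r / 2 := by
      calc ((oc s (3 ^ a j * x + b j) : ℝ) - oc s (3 ^ a i * x + b i)) * Real.log r
          ≤ (2 * A * √s) * Real.log r := mul_le_mul_of_nonneg_right h4 hlogr
        _ ≤ (2 * A * √t) * Real.log t := by gcongr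
        _ ≤ ρ' * r / 2 := by linarith
    have h6 : ((a j : ℝ) - a i) * Real.log r ≤ ρ' * r / 4 := by
      rcases le_total ((a j : ℝ) - a i) 0 with h | h
      · have h7 : ((a j : ℝ) - a i) * Real.log r ≤ 0 := mul_nonpos_of_nonpos_of_nonneg h hlogr
        have h8 : 0 ≤ ρ' * r / 4 := by positivity
        linarith
      · have h7 := mul_le_mul_of_nonneg_left hlogrt h
        have h8 := h0.1 i j
        linarith
    push_cast
    have h9 : 0 ≤ ρ' * r := by positivity
    have e : ((a j : ℝ) + oc s (3 ^ a j * x + b j) - (a i + oc s (3 ^ a i * x + b i))) * Real.log r =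
        ((a j : ℝ) - a i) * Real.log r +
        ((oc s (3 ^ a j * x + b j) : ℝ) - oc s (3 ^ a i * x + b i)) * Real.log r := by ring
    rw [e]
    linarith
  · intro i j hij
    obtain ⟨o, ho⟩ : ∃ o : Fin k → ℕ, o = fun i => oc s (3 ^ a i * x + b i) := ⟨_, rfl⟩
    have ho' : ∀ i, oc s (3 ^ a i * x + b i) = o i := fun i => by rw [ho]
    have hij' : a i + o i ≤ a j + o j := by
      rw [← ho', ← ho']
      exact hij
    obtain ⟨d, hd⟩ := Nat.exists_eq_add_of_le hij'
    have hsub : (a j + oc s (3 ^ a j * x + b j)) - (a i + oc s (3 ^ a i * x + b i)) = d := by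
      rw [ho', ho']
      omega
    show |((T^[s] (3 ^ a j * x + b j) : ℤ) : ℝ) -
      3 ^ ((a j + oc s (3 ^ a j * x + b j)) - (a i + oc s (3 ^ a i * x + b i))) *
        ((T^[s] (3 ^ a i * x + b i) : ℤ) : ℝ)| ≤
      3 ^ ((a j + oc s (3 ^ a j * x + b j)) - (a i + oc s (3 ^ a i * x + b i))) * Real.exp (ρ' * r)
    rw [hsub, T_of, T_of, ho', ho']
    have hl3 : 0 < Real.log 3 := Real.log_pos (by norm_num)
    -- the powers are at most `2 ^ s`
    have hp : ∀ l, (3 : ℝ) ^ o l / 2 ^ s ≤ 1 := by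
      intro l
      rw [div_le_one (by positivity)]
      have l1 : (3 : ℝ) ^ o l = Real.exp (o l * Real.log 3) := by
        rw [mul_comm, Real.exp_mul, Real.exp_log (by norm_num), Real.rpow_natCast]
      have l2 : (2 : ℝ) ^ s = Real.exp (s * Real.log 2) := by
        rw [mul_comm, Real.exp_mul, Real.exp_log (by norm_num), Real.rpow_natCast]
      rw [l1, l2]
      apply Real.exp_le_exp.2
      refine le_trans ?_ c3
      refine mul_le_mul_of_nonneg_right ?_ hl3.le
      have := (abs_le.1 (g1 l)).2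
      rw [ho'] at this
      linarith
    obtain ⟨E, hE⟩ : ∃ E, E = Real.exp (ρ' * r) := ⟨_, rfl⟩
    have hexp : Real.exp (ρ' * δ / 4 * t) ≤ E / 3 := by
      have l4 : E / 3 = Real.exp (ρ' * r - Real.log 3) := by
        rw [Real.exp_sub, Real.exp_log (by norm_num), hE]
      rw [l4]
      apply Real.exp_le_exp.2
      have h9 : 0 ≤ ρ' * r := by positivity
      linarith
    have hd1 : (1 : ℝ) ≤ 3 ^ d := one_le_pow₀ (by norm_num)
    obtain ⟨w, hw⟩ : ∃ w : ℝ, w = (3 : ℝ) ^ o j * (b j : ℝ) / 2 ^ s - 3 ^ d * (3 ^ o i * (b i : ℝ) / 2 ^ s) := ⟨_, rfl⟩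
    have hwb : |w| ≤ 3 ^ d * (E / 3) := by
      rcases le_total (a i) (a j) with h | h
      · obtain ⟨c, hc⟩ := Nat.exists_eq_add_of_le h
        have h5 := h0.2 i j h
        have e1 : a j - a i = c := by omega
        rw [e1] at h5
        have e2 : d + o i = c + o j := by omega
        have e3 : w = 3 ^ o j / 2 ^ s * ((b j : ℝ) - 3 ^ c * b i) := by
          rw [hw]
          have e4 : (3 : ℝ) ^ d * 3 ^ o i = 3 ^ c * 3 ^ o j := by rw [← pow_add, ← pow_add, e2]
          linear_combination (-(b i : ℝ) / 2 ^ s) * e4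
        rw [e3, abs_mul, abs_of_pos (by positivity : (0 : ℝ) < 3 ^ o j / 2 ^ s)]
        calc (3 : ℝ) ^ o j / 2 ^ s * |(b j : ℝ) - 3 ^ c * b i|
            ≤ 3 ^ o j / 2 ^ s * (3 ^ c * Real.exp (ρ' * δ / 4 * t)) := by gcongr
          _ = (3 : ℝ) ^ d * (3 ^ o i / 2 ^ s) * Real.exp (ρ' * δ / 4 * t) := by
              have e4 : (3 : ℝ) ^ d * 3 ^ o i = 3 ^ c * 3 ^ o j := by rw [← pow_add, ← pow_add, e2]
              linear_combination (-(1 : ℝ) / 2 ^ s * Real.exp (ρ' * δ / 4 * t)) * e4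
          _ ≤ (3 : ℝ) ^ d * 1 * (E / 3) := by
              gcongr
              exact hp i
          _ = 3 ^ d * (E / 3) := by ring
      · obtain ⟨c, hc⟩ := Nat.exists_eq_add_of_le h
        have h5 := h0.2 j i h
        have e1 : a i - a j = c := by omega
        rw [e1] at h5
        have e2 : o j = d + o i + c := by omega
        have e3 : w = 3 ^ (d + o i) / 2 ^ s * (-((b i : ℝ) - 3 ^ c * b j)) := by
          rw [hw, e2, pow_add, pow_add]
          ring
        rw [e3, abs_mul, abs_neg, abs_of_pos (by positivity : (0 : ℝ) < 3 ^ (d + o i) / 2 ^ s)]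
        calc (3 : ℝ) ^ (d + o i) / 2 ^ s * |(b i : ℝ) - 3 ^ c * b j|
            ≤ 3 ^ (d + o i) / 2 ^ s * (3 ^ c * Real.exp (ρ' * δ / 4 * t)) := by gcongr
          _ = (3 ^ o j / 2 ^ s) * Real.exp (ρ' * δ / 4 * t) := by
              rw [e2, pow_add _ (d + o i) c]
              ring
          _ ≤ 1 * (E / 3) := by
              gcongr
              exact hp j
          _ ≤ 3 ^ d * (E / 3) := by
              have : 0 ≤ E / 3 := by rw [hE]; positivity
              gcongr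
    have o1 := of_nonneg s (3 ^ a j * x + b j)
    have o2 := of_nonneg s (3 ^ a i * x + b i)
    have q1 := g2 j
    have q2 := g2 i
    rw [← hE] at q1 q2 ⊢
    have e3 : (3 : ℝ) ^ o j * ((3 ^ a j * x + b j : ℤ) : ℝ) / 2 ^ s + of s (3 ^ a j * x + b j) -
        3 ^ d * (3 ^ o i * ((3 ^ a i * x + b i : ℤ) : ℝ) / 2 ^ s + of s (3 ^ a i * x + b i)) =
        w + of s (3 ^ a j * x + b j) - 3 ^ d * of s (3 ^ a i * x + b i) := by
      rw [hw]
      have e4 : (3 : ℝ) ^ o j * 3 ^ a j = 3 ^ d * (3 ^ o i * 3 ^ a i) := by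
        rw [← pow_add, ← pow_add, ← pow_add]
        congr 1
        omega
      push_cast
      linear_combination ((x : ℝ) / 2 ^ s) * e4
    rw [e3]
    calc |w + of s (3 ^ a j * x + b j) - 3 ^ d * of s (3 ^ a i * x + b i)|
        ≤ |w| + |of s (3 ^ a j * x + b j)| + |3 ^ d * of s (3 ^ a i * x + b i)| := by
          refine (abs_sub _ _).trans ?_
          exact add_le_add_left (abs_add_le _ _) _
      _ = |w| + of s (3 ^ a j * x + b j) + 3 ^ d * of s (3 ^ a i * x + b i) := by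
          rw [abs_of_nonneg o1, abs_mul ((3 : ℝ) ^ d) (of s _),
            abs_of_pos (by positivity : (0 : ℝ) < 3 ^ d), abs_of_nonneg o2]
      _ ≤ 3 ^ d * (E / 3) + 3 ^ d * (E / 3) + 3 ^ d * (E / 3) := by
          have w2 := mul_le_mul_of_nonneg_left q2 (by positivity : (0 : ℝ) ≤ 3 ^ d)
          have w3 : of s (3 ^ a j * x + b j) ≤ 3 ^ d * (E / 3) := by
            have : 0 ≤ E / 3 := by rw [hE]; positivity
            nlinarith
          linarith
      _ = 3 ^ d * E := by ring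

/-- JOB BT4-OffStep -/
theorem offStep : S_OffStep := by
  classical
  intro k δ ρ' ε hδ hρ hε
  have hl3 : 0 < Real.log 3 := Real.log_pos (by norm_num)
  obtain ⟨A, hAdef⟩ : ∃ A : ℝ, A = √(k / (2 * ε)) + 1 := ⟨_, rfl⟩
  have hA : 0 < A := by rw [hAdef]; positivity
  have hA2 : (k : ℝ) * (1 / (4 * A ^ 2)) ≤ ε / 2 := by
    have h1 : (k : ℝ) / (2 * ε) ≤ A ^ 2 := by
      have h2 : (k : ℝ) / (2 * ε) = √(k / (2 * ε)) ^ 2 := (Real.sq_sqrt (by positivity)).symm
      rw [h2]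
      apply pow_le_pow_left₀ (Real.sqrt_nonneg _)
      rw [hAdef]
      linarith
    rw [div_le_iff₀ (by positivity)] at h1
    rw [mul_one_div, div_le_iff₀ (by positivity)]
    linarith
  obtain ⟨B, hB⟩ : ∃ B : ℝ, B = Real.log 2 - Real.log 3 / 2 := ⟨_, rfl⟩
  have hB0 : 0 < B := by
    have h1 : Real.log 3 < Real.log 4 := Real.log_lt_log (by norm_num) (by norm_num)
    have h2 : Real.log 4 = 2 * Real.log 2 := by
      rw [show (4 : ℝ) = 2 ^ 2 by norm_num, Real.log_pow]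
      push_cast
      ring
    rw [hB]
    linarith
  refine ⟨ρ' * δ / 4, by positivity, ⌈(16 * A / (ρ' * δ)) ^ 4 + 4 * Real.log 3 / (ρ' * δ) +
    (A * Real.log 3 / B) ^ 2 / δ + 3 * k / (δ ^ 2 * ρ' ^ 2 * ε) + 1 / δ⌉₊ + 1, ?_⟩
  intro t ht s r hs hst hr hrt a b h0
  have hm1 : (16 * A / (ρ' * δ)) ^ 4 + 4 * Real.log 3 / (ρ' * δ) +
    (A * Real.log 3 / B) ^ 2 / δ + 3 * k / (δ ^ 2 * ρ' ^ 2 * ε) + 1 / δ ≤ t := by
    refine (Nat.le_ceil _).trans ?_
    exact Nat.cast_le.2 (le_trans (Nat.le_succ _) ht)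
  have t1 : 0 ≤ (16 * A / (ρ' * δ)) ^ 4 := by positivity
  have t2 : 0 ≤ 4 * Real.log 3 / (ρ' * δ) := by positivity
  have t3 : 0 ≤ (A * Real.log 3 / B) ^ 2 / δ := by positivity
  have t4 : 0 ≤ 3 * k / (δ ^ 2 * ρ' ^ 2 * ε) := by positivity
  have t5 : 0 ≤ 1 / δ := by positivity
  have hst' : (s : ℝ) ≤ t := by exact_mod_cast hst
  have hδt : 1 ≤ δ * t := by
    have h1 : 1 / δ ≤ t := by linarith
    rw [div_le_iff₀ hδ] at h1
    linarith
  have hr1 : (1 : ℝ) ≤ r := by linarith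
  have hs1 : (1 : ℝ) ≤ s := by linarith
  have hs0 : 0 < s := by
    have : (0 : ℝ) < s := by linarith
    exact_mod_cast this
  have ht1 : (1 : ℝ) ≤ t := by linarith
  have c1 : 2 * A * √t * Real.log t ≤ ρ' * δ / 2 * t := by
    have h5 : Real.log t ≤ 4 * √√(t : ℝ) := by
      have e : Real.log t = 4 * Real.log (√√(t : ℝ)) := by
        rw [Real.log_sqrt (by positivity), Real.log_sqrt (by positivity)]
        ring
      rw [e]
      have := Real.log_le_sub_one_of_pos (show 0 < √√(t : ℝ) by positivity)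
      linarith
    have h6 : 16 * A / (ρ' * δ) ≤ √√(t : ℝ) := by
      apply Real.le_sqrt_of_sq_le
      apply Real.le_sqrt_of_sq_le
      rw [← pow_mul]
      have h66 : (16 * A / (ρ' * δ)) ^ 4 ≤ (t : ℝ) := by linarith
      exact h66
    rw [div_le_iff₀ (by positivity)] at h6
    have h7 : √(t : ℝ) = √√(t : ℝ) * √√(t : ℝ) := (Real.mul_self_sqrt (by positivity)).symm
    have h8 : (t : ℝ) = √(t : ℝ) * √(t : ℝ) := (Real.mul_self_sqrt (by positivity)).symm
    calc 2 * A * √t * Real.log t ≤ 2 * A * √t * (4 * √√(t : ℝ)) := by gcongr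
      _ = √t * √√(t : ℝ) / 2 * (16 * A) := by ring
      _ ≤ √t * √√(t : ℝ) / 2 * (√√(t : ℝ) * (ρ' * δ)) := by gcongr
      _ = ρ' * δ / 2 * (√t * (√√(t : ℝ) * √√(t : ℝ))) := by ring
      _ = ρ' * δ / 2 * t := by rw [← h7, ← h8]
  have c2 : Real.log 3 ≤ ρ' * δ * t / 4 := by
    have h1 : 4 * Real.log 3 / (ρ' * δ) ≤ t := by linarith
    rw [div_le_iff₀ (by positivity)] at h1
    linarith
  have c3 : (s / 2 + A * √s) * Real.log 3 ≤ s * Real.log 2 := by
    have h1 : (A * Real.log 3 / B) ^ 2 / δ ≤ t := by linarith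
    rw [div_le_iff₀ hδ] at h1
    have h2 : A * Real.log 3 / B ≤ √(s : ℝ) := by
      apply Real.le_sqrt_of_sq_le
      linarith
    rw [div_le_iff₀ hB0] at h2
    have h3 : (s : ℝ) = √(s : ℝ) * √(s : ℝ) := (Real.mul_self_sqrt (by positivity)).symm
    have h4 := mul_le_mul_of_nonneg_left h2 (Real.sqrt_nonneg (s : ℝ))
    have h5 : √(s : ℝ) * (√(s : ℝ) * B) = s * B := by rw [← mul_assoc, ← h3]
    rw [h5, hB] at h4
    nlinarith
  have c5 : (k : ℝ) * (s / 4 / (Real.exp (ρ' * r) / 3)) ≤ ε / 2 := by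
    have h1 : 3 * (k : ℝ) / (δ ^ 2 * ρ' ^ 2 * ε) ≤ t := by linarith
    rw [div_le_iff₀ (by positivity)] at h1
    have h4 := Real.quadratic_le_exp_of_nonneg (show 0 ≤ ρ' * r by positivity)
    have h2 : (ρ' * r) ^ 2 / 2 ≤ Real.exp (ρ' * r) := by
      have h6 : 0 ≤ ρ' * r := by positivity
      linarith
    have hr0 : (0 : ℝ) < r := by linarith
    have h7 : (0 : ℝ) < (ρ' * r) ^ 2 / 2 := by positivity
    have h8 : δ * s ≤ r := by nlinarith
    calc (k : ℝ) * (s / 4 / (Real.exp (ρ' * r) / 3)) = 3 * k * s / 4 / Real.exp (ρ' * r) := by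
          field_simp
      _ ≤ 3 * k * s / 4 / ((ρ' * r) ^ 2 / 2) := by
          apply div_le_div_of_nonneg_left (by positivity) h7 h2
      _ = 3 * k * s / (2 * ρ' ^ 2 * r ^ 2) := by
          field_simp
          ring
      _ ≤ ε / 2 := by
          rw [div_le_iff₀ (by positivity)]
          -- 3 k s ≤ ε ρ'^2 r^2, as δ s ≤ r and δ t ≤ r
          have h9 : 3 * (k : ℝ) ≤ δ * ρ' ^ 2 * ε * r := by
            calc 3 * (k : ℝ) ≤ t * (δ ^ 2 * ρ' ^ 2 * ε) := h1
              _ = δ * ρ' ^ 2 * ε * (δ * t) := by ring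
              _ ≤ δ * ρ' ^ 2 * ε * r := by gcongr
          calc 3 * (k : ℝ) * s ≤ (δ * ρ' ^ 2 * ε * r) * s := by gcongr
            _ = ρ' ^ 2 * ε * r * (δ * s) := by ring
            _ ≤ ρ' ^ 2 * ε * r * r := by gcongr
            _ = ε / 2 * (2 * ρ' ^ 2 * r ^ 2) := by ring
  have hE : 0 < Real.exp (ρ' * r) / 3 := by positivity
  have step : ∀ x : ℤ, Set.indicator {x : ℤ | ¬ Off ρ' r (fun i => a i + oc s (3 ^ a i * x + b i))
      (fun i => T^[s] (3 ^ a i * x + b i))} 1 x ≤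
      ∑ i, ((oc s (3 ^ a i * x + b i) : ℝ) - s / 2) ^ 2 / (A ^ 2 * s) +
      ∑ i, (1 / (Real.exp (ρ' * r) / 3)) * of s (3 ^ a i * x + b i) := by
    intro x
    have s1 : ∀ i ∈ (univ : Finset (Fin k)), 0 ≤ ((oc s (3 ^ a i * x + b i) : ℝ) - s / 2) ^ 2 / (A ^ 2 * s) :=
      fun i _ => by positivity
    have s2 : ∀ i ∈ (univ : Finset (Fin k)), 0 ≤ (1 / (Real.exp (ρ' * r) / 3)) * of s (3 ^ a i * x + b i) :=
      fun i _ => mul_nonneg (by positivity) (of_nonneg _ _)
    have s1' := sum_nonneg s1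
    have s2' := sum_nonneg s2
    have hone : Set.indicator {x : ℤ | ¬ Off ρ' r (fun i => a i + oc s (3 ^ a i * x + b i))
      (fun i => T^[s] (3 ^ a i * x + b i))} (1 : ℤ → ℝ) x ≤ 1 := by
      apply Set.indicator_le_self' (fun _ _ => zero_le_one) x |>.trans
      exact le_rfl
    by_cases g1 : ∀ i, |(oc s (3 ^ a i * x + b i) : ℝ) - s / 2| ≤ A * √s
    · by_cases g2 : ∀ i, of s (3 ^ a i * x + b i) ≤ Real.exp (ρ' * r) / 3
      · have hoff := off_det hρ hδ hA hr1 hr hrt hst c1 c2 c3 h0 x g1 g2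
        rw [Set.indicator_of_notMem (by simpa using hoff)]
        linarith
      · push Not at g2
        obtain ⟨i, hi⟩ := g2
        have h1 := single_le_sum s2 (mem_univ i)
        have h2 : 1 ≤ (1 / (Real.exp (ρ' * r) / 3)) * of s (3 ^ a i * x + b i) := by
          rw [one_div, inv_mul_eq_div, le_div_iff₀ hE, one_mul]
          exact hi.le
        linarith
    · push Not at g1
      obtain ⟨i, hi⟩ := g1
      have h1 := single_le_sum s1 (mem_univ i)
      have h2 : 1 ≤ ((oc s (3 ^ a i * x + b i) : ℝ) - s / 2) ^ 2 / (A ^ 2 * s) := by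
        rw [le_div_iff₀ (by positivity), one_mul, ← sq_abs ((oc s (3 ^ a i * x + b i) : ℝ) - s / 2)]
        have e : A ^ 2 * s = (A * √s) ^ 2 := by rw [mul_pow, Real.sq_sqrt (by positivity)]
        rw [e]
        exact pow_le_pow_left₀ (by positivity) hi.le 2
      linarith
  refine (EE_mono s step).trans ?_
  rw [EE_add, EE_sum, EE_sum]
  have f1 : ∀ i, EE s (fun x => ((oc s (3 ^ a i * x + b i) : ℝ) - s / 2) ^ 2 / (A ^ 2 * s)) = 1 / (4 * A ^ 2) := by
    intro i
    have h1 := EE_yy (t := s) (h := fun y => ((oc s y : ℝ) - s / 2) ^ 2 / (A ^ 2 * s))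
      (fun x j => by simp only [oc_per]) a b i
    have h2 := EE_cheb s hs0 A hA 0
    simp only [Nat.cast_zero, add_zero] at h2
    rw [h2] at h1
    exact h1
  have f2 : ∀ i, EE s (fun x => (1 / (Real.exp (ρ' * r) / 3)) * of s (3 ^ a i * x + b i)) =
      (1 / (Real.exp (ρ' * r) / 3)) * (s / 4) := by
    intro i
    rw [EE_mul]
    congr 1
    have h1 := EE_yy (t := s) (h := fun y => of s y) (fun x j => by simp only [of_per]) a b i
    have h2 := EE_of s 0
    simp only [Nat.cast_zero, add_zero] at h2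
    rw [h2] at h1
    exact h1
  rw [sum_congr rfl fun i _ => f1 i, sum_congr rfl fun i _ => f2 i]
  rw [sum_const, sum_const, card_univ, Fintype.card_fin, nsmul_eq_mul, nsmul_eq_mul]
  have e1 : (k : ℝ) * (1 / (Real.exp (ρ' * r) / 3) * (s / 4)) = (k : ℝ) * (s / 4 / (Real.exp (ρ' * r) / 3)) := by
    ring
  rw [e1]
  linarith

end Pool.Agent.Q151.BT
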